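import Pool.Agent.Y327.XS.Main

/-!
# Directed X-rays: uniqueness fails inside every set that has an accumulation point
-/

set_option autoImplicit false

open MeasureTheory Filter Topology
open scoped ContDiff

namespace Pool.Agent.Results.MP_113557_an.EveryAccumulation

/-- The divergent beam transform (directed X-ray) `D_p f(u)`: the integral of `f` along the ray
that starts at `p` and has direction `u`. -/
noncomputable def beam {n : ℕ} (f : EuclideanSpace ℝ (Fin n) → ℝ)
    (p u : EuclideanSpace ℝ (Fin n)) : ℝ :=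
  ∫ t in Set.Ioi (0 : ℝ), f (p + t • u)

/-- Let `P` be any set of points of `ℝⁿ` with an accumulation point `a`, and let `B` be any closed
ball of positive radius. There are an infinite subset `P'` of `P` and a `C^∞` function `f` with
compact support, which vanishes outside the convex hull of `{a} ∪ B` and is not almost everywhere
zero, such that all directed X-rays of `f` at all points of `P'` and at `a` vanish. -/
theorem result (n : ℕ) (P : Set (EuclideanSpace ℝ (Fin n))) (a : EuclideanSpace ℝ (Fin n))
    (ha : AccPt a (𝓟 P)) (c : EuclideanSpace ℝ (Fin n)) (ρ : ℝ) (hρ : 0 < ρ) :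
    ∃ (P' : Set (EuclideanSpace ℝ (Fin n))) (f : EuclideanSpace ℝ (Fin n) → ℝ),
      P' ⊆ P ∧ P'.Infinite ∧ ContDiff ℝ ∞ f ∧ HasCompactSupport f ∧
      (∀ x, x ∉ convexHull ℝ (insert a (Metric.closedBall c ρ)) → f x = 0) ∧
      ¬ (f =ᵐ[volume] 0) ∧
      ∀ p ∈ insert a P', ∀ u : EuclideanSpace ℝ (Fin n), ‖u‖ = 1 → beam f p u = 0 := by
  obtain ⟨f, P', h1, h2, h3, h4, h5, ⟨x, hx⟩, h6⟩ := Pool.Agent.Y327.XS.main P a ha c ρ hρ
  refine ⟨P', f, h1, h2, h3, h4, fun x hx => ?_, fun h => hx ?_, h6⟩
  · by_contra hcon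
    exact hx (h5 x hcon)
  · have h7 : f = 0 := (h3.continuous.ae_eq_iff_eq volume continuous_zero).1 h
    rw [h7]
    rfl

end Pool.Agent.Results.MP_113557_an.EveryAccumulation
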